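import Pool.Agent.R130.AV.LFin
import Pool.Agent.R130.AV.LDet
import Pool.Agent.R130.AV.LDetN
import Pool.Agent.R130.AV.LPerm
import Pool.Agent.R130.AV.LAvg
import Pool.Agent.R130.AV.LX
import Pool.Agent.R130.AV.LPat
import Pool.Agent.R130.AV.LProb
import Pool.Agent.R130.AV.LAna

/-!
# 1-avoidance couplings of `k` Bernoulli sequences: the bound `k p (1 + p log (1/p)) ≤ 1`
-/

set_option autoImplicit false

open MeasureTheory Filter Topology

namespace Pool.Agent.Results.MP_f1618c_pr.LogUpperBound

/-- A 1-avoidance coupling of `k` Bernoulli(p) walkers on some probability space: `X j t` is the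
position of walker `j` after his move in round `t` (`true` is the point 1); walkers and rounds are
numbered from `0`, and walker `j` moves in round `t` at turn `t * k + j`. For every walker the
sequence of his positions is i.i.d. Bernoulli(p) (every word `y` of length `n` has probability
`p ^ (number of ones) * (1 - p) ^ (number of zeros)`), and almost surely two turns at distance
less than `k` never both produce a `1` (every block of `k` consecutive turns has at most one
`1`). No other condition is imposed on the joint law. -/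
def Coupling (k : ℕ) (p : ℝ) : Prop :=
  ∃ (Ω : Type) (_ : MeasurableSpace Ω) (μ : Measure Ω) (X : Fin k → ℕ → Ω → Bool),
    IsProbabilityMeasure μ ∧ (∀ j t, Measurable (X j t)) ∧
    (∀ (j : Fin k) (n : ℕ) (y : Fin n → Bool),
      μ.real {ω | ∀ i : Fin n, X j i ω = y i} = ∏ i, (if y i = true then p else 1 - p)) ∧
    (∀ᵐ ω ∂μ, ∀ (t t' : ℕ) (j j' : Fin k), t * k + j < t' * k + j' →
      t' * k + j' < t * k + j + k → ¬ (X j t ω = true ∧ X j' t' ω = true))

/-- `p_k`: the supremum of all `p` in `[0, 1]` for which a 1-avoidance coupling of `k`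
Bernoulli(p) walkers exists. -/
noncomputable def pk (k : ℕ) : ℝ := sSup {p : ℝ | 0 ≤ p ∧ p ≤ 1 ∧ Coupling k p}

/-- A 1-avoidance coupling of `k` Bernoulli(p) walkers exists only if
`k p (1 + p log (1/p)) ≤ 1`; the number `p_k` satisfies this inequality too, and for every
`ε > 0` we have `1 / p_k ≥ k + (1 - ε) log k` for all large `k`. -/
theorem result :
    (∀ (k : ℕ) (p : ℝ), 1 ≤ k → 0 < p → Coupling k p →
      (k : ℝ) * p * (1 + p * Real.log (1 / p)) ≤ 1) ∧
    (∀ k : ℕ, 1 ≤ k → (k : ℝ) * pk k * (1 + pk k * Real.log (1 / pk k)) ≤ 1) ∧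
    (∀ ε : ℝ, 0 < ε → ∀ᶠ k : ℕ in atTop, (k : ℝ) + (1 - ε) * Real.log k ≤ 1 / pk k) := by
  have hprob : Pool.Agent.R130.AV.Log.StmProb :=
    Pool.Agent.R130.AV.Log.prob
      (Pool.Agent.R130.AV.Log.detX
        (Pool.Agent.R130.AV.Log.avg
          (Pool.Agent.R130.AV.Log.detN Pool.Agent.R130.AV.Log.det)
          Pool.Agent.R130.AV.Log.perm))
      Pool.Agent.R130.AV.Log.pat
  exact ⟨fun k p hk hp h => Pool.Agent.R130.AV.Log.bound hprob Pool.Agent.R130.AV.Log.ana k p hk hp h,
    fun k hk => (Pool.Agent.R130.AV.Log.pk_bound hprob Pool.Agent.R130.AV.Log.ana k hk).2.2,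
    fun ε hε => Pool.Agent.R130.AV.Log.asym hprob Pool.Agent.R130.AV.Log.ana ε hε⟩

end Pool.Agent.Results.MP_f1618c_pr.LogUpperBound
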