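import Pool.Agent.R130.AV.Fin

/-!
# 1-avoidance couplings of two Bernoulli sequences: `p_2 = 1/3`
-/

set_option autoImplicit false

open MeasureTheory

namespace Pool.Agent.Results.MP_f1618c_pr.TwoWalkers

/-- A 1-avoidance coupling of `k` Bernoulli(p) walkers on some probability space: `X j t` is the
position of walker `j` after his move in round `t` (`true` is the point 1); walkers and rounds are
numbered from `0`, and walker `j` moves in round `t` at turn `t * k + j`. For every walker the
sequence of his positions is i.i.d. Bernoulli(p) (every word `y` of length `n` has probability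
`p ^ (number of ones) * (1 - p) ^ (number of zeros)`), and almost surely two turns at distance
less than `k` never both produce a `1` (every block of `k` consecutive turns has at most one
`1`). No other condition is imposed on the joint law. -/
def Coupling (k : ℕ) (p : ℝ) : Prop :=
  ∃ (Ω : Type) (_ : MeasurableSpace Ω) (μ : Measure Ω) (X : Fin k → ℕ → Ω → Bool),
    IsProbabilityMeasure μ ∧ (∀ j t, Measurable (X j t)) ∧
    (∀ (j : Fin k) (n : ℕ) (y : Fin n → Bool),
      μ.real {ω | ∀ i : Fin n, X j i ω = y i} = ∏ i, (if y i = true then p else 1 - p)) ∧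
    (∀ᵐ ω ∂μ, ∀ (t t' : ℕ) (j j' : Fin k), t * k + j < t' * k + j' →
      t' * k + j' < t * k + j + k → ¬ (X j t ω = true ∧ X j' t' ω = true))

/-- Two walkers: a 1-avoidance coupling of two Bernoulli(p) walkers exists for `p = 1/3`, and for no
larger `p`. So `p_2 = 1/3`. -/
theorem result : Coupling 2 (1 / 3) ∧ ∀ p : ℝ, 1 / 3 < p → ¬ Coupling 2 p :=
  ⟨Pool.Agent.R130.AV.Third.third, fun p hp h =>
    absurd (Pool.Agent.R130.AV.two.2 p (le_trans (by norm_num) hp.le) h) (not_le.mpr hp)⟩

end Pool.Agent.Results.MP_f1618c_pr.TwoWalkers
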