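import Pool.Agent.R130.AV.Ub3

/-!
# 1-avoidance couplings of `k` Bernoulli sequences: an upper bound for every `k`
-/

set_option autoImplicit false

open MeasureTheory

namespace Pool.Agent.Results.MP_f1618c_pr.UpperBound

/-- A 1-avoidance coupling of `k` Bernoulli(p) walkers on some probability space: `X j t` is the
position of walker `j` after his move in round `t` (`true` is the point 1); walkers and rounds are
numbered from `0`, and walker `j` moves in round `t` at turn `t * k + j`. For every walker the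
sequence of his positions is i.i.d. Bernoulli(p) (every word `y` of length `n` has probability
`p ^ (number of ones) * (1 - p) ^ (number of zeros)`), and almost surely two turns at distance
less than `k` never both produce a `1` (every block of `k` consecutive turns has at most one
`1`). No other condition is imposed on the joint law. -/
def Coupling (k : ℕ) (p : ℝ) : Prop :=
  ∃ (Ω : Type) (_ : MeasurableSpace Ω) (μ : Measure Ω) (X : Fin k → ℕ → Ω → Bool),
    IsProbabilityMeasure μ ∧ (∀ j t, Measurable (X j t)) ∧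
    (∀ (j : Fin k) (n : ℕ) (y : Fin n → Bool),
      μ.real {ω | ∀ i : Fin n, X j i ω = y i} = ∏ i, (if y i = true then p else 1 - p)) ∧
    (∀ᵐ ω ∂μ, ∀ (t t' : ℕ) (j j' : Fin k), t * k + j < t' * k + j' →
      t' * k + j' < t * k + j + k → ¬ (X j t ω = true ∧ X j' t' ω = true))

/-- `p_k`: the supremum of all `p` in `[0, 1]` for which a 1-avoidance coupling of `k`
Bernoulli(p) walkers exists. -/
noncomputable def pk (k : ℕ) : ℝ := sSup {p : ℝ | 0 ≤ p ∧ p ≤ 1 ∧ Coupling k p}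

/-- For `k ≥ 2` a 1-avoidance coupling of `k` Bernoulli(p) walkers exists only if
`(k - 1) (p + p ^ 2 - p ^ 3) ≤ (1 - p) ^ 2`; the number `p_k` itself satisfies this inequality too,
and `p_k < 1 / (k + 1)` for all `k ≥ 3`. -/
theorem result :
    (∀ (k : ℕ) (p : ℝ), 2 ≤ k → Coupling k p → ((k : ℝ) - 1) * (p + p ^ 2 - p ^ 3) ≤ (1 - p) ^ 2) ∧
    (∀ k : ℕ, 2 ≤ k → ((k : ℝ) - 1) * (pk k + pk k ^ 2 - pk k ^ 3) ≤ (1 - pk k) ^ 2) ∧
    (∀ k : ℕ, 3 ≤ k → pk k < 1 / ((k : ℝ) + 1)) := by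
  have h1 : ∀ (k : ℕ) (p : ℝ), 2 ≤ k → Coupling k p →
      ((k : ℝ) - 1) * (p + p ^ 2 - p ^ 3) ≤ (1 - p) ^ 2 :=
    fun k p hk h => Pool.Agent.R130.AV.ub3 k p hk h
  have h2 : ∀ k : ℕ, 2 ≤ k → 0 ≤ pk k ∧ pk k ≤ 1 ∧
      ((k : ℝ) - 1) * (pk k + pk k ^ 2 - pk k ^ 3) ≤ (1 - pk k) ^ 2 := by
    intro k hk
    by_cases hne : {p : ℝ | 0 ≤ p ∧ p ≤ 1 ∧ Coupling k p}.Nonempty
    · have hcl : IsClosed {p : ℝ | 0 ≤ p ∧ p ≤ 1 ∧
          ((k : ℝ) - 1) * (p + p ^ 2 - p ^ 3) ≤ (1 - p) ^ 2} := by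
        have e : {p : ℝ | 0 ≤ p ∧ p ≤ 1 ∧ ((k : ℝ) - 1) * (p + p ^ 2 - p ^ 3) ≤ (1 - p) ^ 2} =
            {p : ℝ | 0 ≤ p} ∩ ({p : ℝ | p ≤ 1} ∩
              {p : ℝ | ((k : ℝ) - 1) * (p + p ^ 2 - p ^ 3) ≤ (1 - p) ^ 2}) := by
          ext p; simp
        rw [e]
        refine (isClosed_le continuous_const continuous_id).inter
          ((isClosed_le continuous_id continuous_const).inter (isClosed_le ?_ ?_)) <;> fun_prop
      have hb : BddAbove {p : ℝ | 0 ≤ p ∧ p ≤ 1 ∧ Coupling k p} := ⟨1, fun p hp => hp.2.1⟩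
      have hm := csSup_mem_closure hne hb
      have hsub : {p : ℝ | 0 ≤ p ∧ p ≤ 1 ∧ Coupling k p} ⊆ {p : ℝ | 0 ≤ p ∧ p ≤ 1 ∧
          ((k : ℝ) - 1) * (p + p ^ 2 - p ^ 3) ≤ (1 - p) ^ 2} :=
        fun p hp => ⟨hp.1, hp.2.1, h1 k p hk hp.2.2⟩
      exact closure_minimal hsub hcl hm
    · have h0 : pk k = 0 := by
        unfold pk
        rw [Set.not_nonempty_iff_eq_empty.mp hne]
        exact Real.sSup_empty
      rw [h0]
      norm_num
  refine ⟨h1, fun k hk => (h2 k hk).2.2, fun k hk => ?_⟩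
  obtain ⟨h0, h3, h4⟩ := h2 k (by omega)
  by_contra hc
  rw [not_lt] at hc
  have hK3 : (3 : ℝ) ≤ (k : ℝ) := by exact_mod_cast hk
  generalize pk k = x at *
  generalize (k : ℝ) = K at *
  have hK1 : 0 < K + 1 := by linarith
  -- the value at `y = 1 / (K + 1)`
  set y : ℝ := 1 / (K + 1) with hy
  have hy0 : 0 < y := by rw [hy]; positivity
  have hyK : y * (K + 1) = 1 := by rw [hy]; field_simp
  have hy1 : y ≤ 1 / 4 := by
    rw [hy]
    exact one_div_le_one_div_of_le (by norm_num) (by linarith)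
  -- monotonicity
  have hmono : (K - 1) * (y + y ^ 2 - y ^ 3) ≤ (K - 1) * (x + x ^ 2 - x ^ 3) := by
    apply mul_le_mul_of_nonneg_left _ (by linarith)
    have : x + x ^ 2 - x ^ 3 - (y + y ^ 2 - y ^ 3) =
        (x - y) * (1 + (x + y) - (x ^ 2 + x * y + y ^ 2)) := by ring
    have h5 : 0 ≤ (x - y) * (1 + (x + y) - (x ^ 2 + x * y + y ^ 2)) := by
      apply mul_nonneg (by linarith)
      nlinarith
    linarith
  have hmono2 : (1 - x) ^ 2 ≤ (1 - y) ^ 2 := by
    apply pow_le_pow_left₀ (by linarith) (by linarith)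
  have h6 : (K - 1) * (y + y ^ 2 - y ^ 3) ≤ (1 - y) ^ 2 := by linarith
  have hK : K = 1 / y - 1 := by field_simp; linarith
  have h7 : (K - 1) * y = 1 - 2 * y := by linarith
  have h8 : (1 - 2 * y) * (1 + y - y ^ 2) ≤ (1 - y) ^ 2 := by
    calc (1 - 2 * y) * (1 + y - y ^ 2) = ((K - 1) * y) * (1 + y - y ^ 2) := by rw [h7]
      _ = (K - 1) * (y + y ^ 2 - y ^ 3) := by ring
      _ ≤ _ := h6
  -- `(1 - 2y)(1 + y - y²) - (1 - y)² = y (1 - 4 y + 2 y²)`
  have h9 : (1 - 2 * y) * (1 + y - y ^ 2) - (1 - y) ^ 2 = y * (1 - 4 * y + 2 * y ^ 2) := by ring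
  have h10 : 0 < y * (1 - 4 * y + 2 * y ^ 2) := by
    apply mul_pos hy0
    nlinarith
  linarith

end Pool.Agent.Results.MP_f1618c_pr.UpperBound
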